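import Pool.Agent.R967.FB.Wiener

/-!
Project BW (helper974): MP_0f8574_pr, windows of Brownian motion with the law of the three-dimensional Bessel process
and of the co-meander at random times of finite expectation. Definitions.
-/

set_option autoImplicit false

namespace Pool.Agent.R974.BW

open MeasureTheory ProbabilityTheory Filter Topology Set
open Pool.Agent.R967.FB
open scoped ENNReal NNReal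

/-- the path space -/
abbrev Pth := C(ℝ≥0, ℝ)

/-- the transition density of Brownian motion killed at `0` -/
noncomputable def hk (t x y : ℝ) : ℝ :=
  (Real.sqrt (2 * Real.pi * t))⁻¹ *
    (Real.exp (-(y - x) ^ 2 / (2 * t)) - Real.exp (-(y + x) ^ 2 / (2 * t)))

/-- the killed semigroup -/
noncomputable def KQ (t : ℝ≥0) (φ : ℝ → ℝ≥0∞) (x : ℝ) : ℝ≥0∞ :=
  ∫⁻ y in Ioi 0, ENNReal.ofReal (hk t x y) * φ y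

/-- the entrance density: `lim hk t x y / x` as `x → 0` -/
noncomputable def ent (t : ℝ≥0) (y : ℝ) : ℝ :=
  Real.sqrt (2 / Real.pi) * (t : ℝ) ^ (-(3 / 2) : ℝ) * y * Real.exp (-y ^ 2 / (2 * t))

/-- the paths which, started at `x`, stay positive on `[0, t]` -/
def Up (x : ℝ) (t : ℝ≥0) : Set Pth := {w | ∀ s : ℝ≥0, s ≤ t → 0 < x + w s}

/-- the path stopped at time `s` -/
def stp (s : ℝ≥0) (w : Pth) : Pth := ⟨fun t => w (min t s), by fun_prop⟩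

/-- the block number `i`: the increments of the path on `[3 i, 3 i + 3]` -/
def blk (i : ℕ) (w : Pth) : Pth := stp 3 (shift (3 * i) w)

/-- product along a list of (time increment, function), evaluated along `f` after time `t` -/
noncomputable def PP : List (ℝ≥0 × (ℝ → ℝ≥0∞)) → ℝ≥0 → (ℝ≥0 → ℝ) → ℝ≥0∞
  | [], _, _ => 1
  | (p :: L), t, f => p.2 (f (t + p.1)) * PP L (t + p.1) f

/-- the total time of a list -/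
def total (L : List (ℝ≥0 × (ℝ → ℝ≥0∞))) : ℝ≥0 := (L.map Prod.fst).sum

/-- the functional of the killed path started at `x` -/
noncomputable def PF : List (ℝ≥0 × (ℝ → ℝ≥0∞)) → (ℝ → ℝ≥0∞) → ℝ → Pth → ℝ≥0∞
  | [], ψ, x, _ => ψ x
  | (p :: L), ψ, x, w =>
      (Up x p.1).indicator (fun w => p.2 (x + w p.1) * PF L ψ (x + w p.1) (shift p.1 w)) w

/-- the nested kernels -/
noncomputable def NK : List (ℝ≥0 × (ℝ → ℝ≥0∞)) → (ℝ → ℝ≥0∞) → ℝ → ℝ≥0∞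
  | [], ψ, x => ψ x
  | (p :: L), ψ, x => KQ p.1 (fun y => p.2 y * NK L ψ y) x

/-- continuous and bounded -/
def Cb (φ : ℝ → ℝ≥0∞) : Prop := Continuous φ ∧ ∃ C : ℝ≥0, ∀ x, φ x ≤ C

/-- positive time increments, continuous bounded functions -/
def Good (L : List (ℝ≥0 × (ℝ → ℝ≥0∞))) : Prop := ∀ p ∈ L, 0 < p.1 ∧ Cb p.2

/-- the window density with parameters `h` and `ε` -/
noncomputable def fw (h : ℝ → ℝ≥0∞) (ε : ℝ) (w : Pth) : ℝ≥0∞ :=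
  (Up ε 1).indicator (fun w => ENNReal.ofReal (1 / ε) * h (w 1 + ε)) w

/-- the norm of a path in `ℝ³` -/
noncomputable def Rad (p : Pth × Pth × Pth) (t : ℝ≥0) : ℝ :=
  Real.sqrt (p.1 t ^ 2 + p.2.1 t ^ 2 + p.2.2 t ^ 2)

/-- three independent Brownian motions -/
noncomputable def W3 (W : Measure Pth) : Measure (Pth × Pth × Pth) := W.prod (W.prod W)

/-- the function only depends on the path on `[0, 1]` -/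
def Loc (f : Pth → ℝ≥0∞) : Prop := ∀ w w' : Pth, (∀ s : ℝ≥0, s ≤ 1 → w s = w' s) → f w = f w'

/-! ### Statements of the pieces -/

/-- (UPM) -/
def S_UPM : Prop := ∀ t : ℝ≥0, IsOpen {p : ℝ × Pth | p.2 ∈ Up p.1 t}

/-- (SHC) -/
def S_SHC : Prop := Continuous (fun p : Pth × ℝ≥0 => shift p.2 p.1)

/-- (MKV) the Markov property -/
def S_MKV : Prop := ∀ (W : Measure Pth), IsWiener W → ∀ (s : ℝ≥0) (Φ : Pth × Pth → ℝ≥0∞), Measurable Φ →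
  ∫⁻ w, Φ (stp s w, shift s w) ∂W = ∫⁻ w₁, ∫⁻ w₂, Φ (stp s w₁, w₂) ∂W ∂W

/-- (IND) the blocks are independent and identically distributed -/
def S_IND : Prop := ∀ (W : Measure Pth), IsWiener W → ∀ N : ℕ,
  W.map (fun w (i : Fin N) => blk i w) = Measure.pi fun _ => W.map (blk 0)

/-- (REF) the reflection principle -/
def S_REF : Prop := ∀ (W : Measure Pth), IsWiener W → ∀ (x : ℝ) (t : ℝ≥0) (φ : ℝ → ℝ≥0∞), 0 < x → 0 < t →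
  Measurable φ → ∫⁻ w in Up x t, φ (x + w t) ∂W = KQ t φ x

/-- (MK) the finite-dimensional laws of the killed motion -/
def S_MK : Prop := ∀ (W : Measure Pth), IsWiener W → ∀ (L : List (ℝ≥0 × (ℝ → ℝ≥0∞))) (ψ : ℝ → ℝ≥0∞) (x : ℝ),
  (∀ p ∈ L, 0 < p.1 ∧ Measurable p.2) → Measurable ψ → 0 < x → ∫⁻ w, PF L ψ x w ∂W = NK L ψ x

/-- (PFP) -/
def S_PFP : Prop := ∀ (L : List (ℝ≥0 × (ℝ → ℝ≥0∞))) (ψ : ℝ → ℝ≥0∞) (x : ℝ) (w : Pth), 0 < x → w 0 = 0 →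
  PF L ψ x w = (Up x (total L)).indicator
    (fun w => PP L 0 (fun s => x + w s) * ψ (x + w (total L))) w

/-- (RAD) one step of the norm of the three-dimensional motion -/
def S_RAD : Prop := ∀ (t : ℝ≥0) (φ : ℝ → ℝ≥0∞), 0 < t → Measurable φ →
  (∀ z₁ z₂ z₃ : ℝ, 0 < Real.sqrt (z₁ ^ 2 + z₂ ^ 2 + z₃ ^ 2) →
    ∫⁻ a, ∫⁻ b, ∫⁻ c, φ (Real.sqrt ((z₁ + a) ^ 2 + (z₂ + b) ^ 2 + (z₃ + c) ^ 2))
      ∂(gaussianReal 0 t) ∂(gaussianReal 0 t) ∂(gaussianReal 0 t) =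
    ENNReal.ofReal (Real.sqrt (z₁ ^ 2 + z₂ ^ 2 + z₃ ^ 2))⁻¹ *
      KQ t (fun y => ENNReal.ofReal y * φ y) (Real.sqrt (z₁ ^ 2 + z₂ ^ 2 + z₃ ^ 2))) ∧
  ∫⁻ a, ∫⁻ b, ∫⁻ c, φ (Real.sqrt (a ^ 2 + b ^ 2 + c ^ 2))
      ∂(gaussianReal 0 t) ∂(gaussianReal 0 t) ∂(gaussianReal 0 t) =
    ∫⁻ y in Ioi 0, ENNReal.ofReal (ent t y * y) * φ y

/-- (BF) finite-dimensional laws of the Bessel process -/
def S_BF : Prop := ∀ (W : Measure Pth), IsWiener W → ∀ (s : ℝ≥0) (φ : ℝ → ℝ≥0∞)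
  (L : List (ℝ≥0 × (ℝ → ℝ≥0∞))) (ψ : ℝ → ℝ≥0∞), 0 < s → Measurable φ →
  (∀ p ∈ L, 0 < p.1 ∧ Measurable p.2) → Measurable ψ →
  ∫⁻ p, PP ((s, φ) :: L) 0 (Rad p) * ψ (Rad p (total ((s, φ) :: L))) ∂(W3 W) =
    ∫⁻ y in Ioi 0, ENNReal.ofReal (ent s y) * (φ y * NK L (fun z => ENNReal.ofReal z * ψ z) y)

/-- (LIM) the limit `ε → 0` of the nested kernels -/
def S_LIM : Prop := ∀ (s : ℝ≥0) (φ : ℝ → ℝ≥0∞) (L : List (ℝ≥0 × (ℝ → ℝ≥0∞))) (ψ : ℝ → ℝ → ℝ≥0∞)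
  (ψ₀ : ℝ → ℝ≥0∞) (C : ℝ≥0), Good ((s, φ) :: L) → (∀ ε, Measurable (ψ ε)) → Measurable ψ₀ →
  (∀ ε y : ℝ, 0 < ε → ε ≤ 1 → 0 < y → ψ ε y ≤ C * ENNReal.ofReal (y + 1 / y)) →
  (∀ y : ℝ, 0 < y → Tendsto (fun ε => ψ ε y) (𝓝[>] 0) (𝓝 (ψ₀ y))) →
  Tendsto (fun ε : ℝ => ENNReal.ofReal (1 / ε) *
      NK (((s, φ) :: L).map fun p => (p.1, fun y => p.2 (y - ε))) (ψ ε) ε) (𝓝[>] 0)
    (𝓝 (∫⁻ y in Ioi 0, ENNReal.ofReal (ent s y) * (φ y * NK L ψ₀ y)))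

/-- (CNS) the constants are one -/
def S_CNS : Prop := ∀ (W : Measure Pth), IsWiener W →
  ∫⁻ p, ENNReal.ofReal (1 / Rad p 1) * ENNReal.ofReal (Rad p 1) ∂(W3 W) = 1 ∧
  ∫⁻ p, ENNReal.ofReal (1 / Rad p 1) * ENNReal.ofReal (1 / Rad p 1) ∂(W3 W) = 1

/-- (LAW) the limit of the window laws -/
def S_LAW : Prop := ∀ (W : Measure Pth), IsWiener W → ∀ (h : ℝ → ℝ → ℝ≥0∞) (h₀ : ℝ → ℝ≥0∞) (C : ℝ≥0)
  (L : List (ℝ≥0 × (ℝ → ℝ≥0∞))), (∀ ε, Measurable (h ε)) → Measurable h₀ →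
  (∀ ε y : ℝ, 0 < ε → ε ≤ 1 → 0 < y → h ε y ≤ C * ENNReal.ofReal (y + 1 / y)) →
  (∀ y : ℝ, 0 < y → Tendsto (fun ε => h ε y) (𝓝[>] 0) (𝓝 (h₀ y))) →
  L ≠ [] → Good L → total L = 1 →
  Tendsto (fun ε : ℝ => ∫⁻ w, PP L 0 w * fw (h ε) ε w ∂W) (𝓝[>] 0)
    (𝓝 (∫⁻ p, PP L 0 (Rad p) * (ENNReal.ofReal (1 / Rad p 1) * h₀ (Rad p 1)) ∂(W3 W)))

/-- (KB) bounds for the killed semigroup -/
def S_KB1 : Prop :=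
  (∀ (t : ℝ≥0) (x : ℝ), 0 < t → 0 < x → KQ t (fun _ => 1) x ≤ ENNReal.ofReal (x * (t : ℝ) ^ (-(1 / 2) : ℝ))) ∧
  (∀ (t : ℝ≥0) (x : ℝ), 0 < t → 0 < x → KQ t (fun y => ENNReal.ofReal y) x ≤ ENNReal.ofReal x) ∧
  (∃ C : ℝ≥0, ∀ (t : ℝ≥0) (x : ℝ), 0 < t → t ≤ 1 → 0 < x → x ≤ 1 →
    KQ t (fun y => ENNReal.ofReal (y ^ 2)) x ≤ C * ENNReal.ofReal x)

def S_KB2 : Prop :=
  (∃ C : ℝ≥0, ∀ (t : ℝ≥0) (x : ℝ), 0 < t → 0 < x → KQ t (fun y => ENNReal.ofReal (1 / y)) x ≤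
    C * ENNReal.ofReal ((t : ℝ) ^ (-(1 / 4) : ℝ) * x ^ (-(1 / 2) : ℝ))) ∧
  (∃ C : ℝ≥0, ∀ (t : ℝ≥0) (x : ℝ), 1 / 2 ≤ t → t ≤ 1 → 0 < x → x ≤ 1 →
    KQ t (fun y => ENNReal.ofReal (y ^ (-(3 / 2) : ℝ))) x ≤ C * ENNReal.ofReal x)

/-- (SA1) correlations of the window densities, `h ≤ 1 / y` -/
def S_SA1 : Prop := ∃ C : ℝ≥0, ∀ (W : Measure Pth), IsWiener W → ∀ (h : ℝ → ℝ≥0∞) (ε : ℝ) (r : ℝ≥0),
  Measurable h → (∀ y : ℝ, 0 < y → h y ≤ ENNReal.ofReal (1 / y)) → 0 < ε → ε ≤ 1 → 0 < r → r ≤ 1 / 2 →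
  ∫⁻ w, fw h ε w * fw h ε (shift r w) ∂W ≤ C * ENNReal.ofReal ((r : ℝ) ^ (-(3 / 4) : ℝ))

/-- (SA2) correlations of the window densities, `h ≤ y` -/
def S_SA2 : Prop := ∃ C : ℝ≥0, ∀ (W : Measure Pth), IsWiener W → ∀ (h : ℝ → ℝ≥0∞) (ε : ℝ) (r : ℝ≥0),
  Measurable h → (∀ y : ℝ, 0 < y → h y ≤ ENNReal.ofReal y) → 0 < ε → ε ≤ 1 → 0 < r → r ≤ 1 / 2 →
  ∫⁻ w, fw h ε w * fw h ε (shift r w) ∂W ≤ C * ENNReal.ofReal ((r : ℝ) ^ (-(3 / 4) : ℝ))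

/-- (SMF) from correlations to the second moment -/
def S_SMF : Prop := ∀ (W : Measure Pth), IsWiener W → ∀ (f : Pth → ℝ≥0∞) (C : ℝ≥0), Measurable f →
  (∀ r : ℝ≥0, 0 < r → r ≤ 1 / 2 →
    ∫⁻ w, f w * f (shift r w) ∂W ≤ C * ENNReal.ofReal ((r : ℝ) ^ (-(3 / 4) : ℝ))) →
  ∫⁻ w, (∫⁻ t in Icc (0 : ℝ) (1 / 2), f (shift t.toNNReal w)) ^ 2 ∂W ≤ 8 * C

/-- (SEL) selection of a block, anticipating -/
def S_SEL : Prop := ∀ A : ℝ, ∃ C : ℝ, ∀ (ν : Measure ℝ) (b : ℝ), IsProbabilityMeasure ν →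
  (∀ᵐ z ∂ν, 0 ≤ z ∧ z ≤ b) → ∫ z, z ∂ν = 1 → ∫ z, z ^ 2 ∂ν ≤ A → ∀ δ : ℝ, 0 < δ →
  ∃ (N : ℕ) (κ : Fin N → (Fin N → ℝ) → ℝ), (∀ i, Measurable (κ i)) ∧ (∀ i z, 0 ≤ κ i z ∧ κ i z ≤ 1) ∧
    (∀ z : Fin N → ℝ, (∀ i, 0 ≤ z i) → ∑ i, κ i z * z i ≤ 1) ∧
    (∀ z : ℝ, 0 ≤ z → z ≤ b →
      ∑ i, ∫ z', κ i (Function.update z' i z) ∂(Measure.pi fun _ => ν) ≤ 1 ∧
      1 - δ ≤ ∑ i, ∫ z', κ i (Function.update z' i z) ∂(Measure.pi fun _ => ν)) ∧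
    ∑ i : Fin N, (3 * ((i : ℕ) : ℝ) + 1) *
      ∫ z, (∫ z', κ i (Function.update z' i z) ∂(Measure.pi fun _ => ν)) * z ∂ν ≤ C

/-- (CON) construction of the random time for a window density -/
def S_CON : Prop := ∀ (W : Measure Pth), IsWiener W → ∀ A : ℝ≥0, ∃ C : ℝ≥0, ∀ (f : Pth → ℝ≥0∞) (b : ℝ≥0),
  Measurable f → (∀ w, f w ≤ b) → Loc f → ∫⁻ w, f w ∂W = 1 →
  ∫⁻ w, (∫⁻ t in Icc (0 : ℝ) (1 / 2), f (shift t.toNNReal w)) ^ 2 ∂W ≤ A → ∀ δ : ℝ≥0, 0 < δ →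
  ∃ Γ : Measure (Pth × ℝ≥0), IsProbabilityMeasure Γ ∧ Γ.map Prod.fst = W ∧ ∫⁻ p, (p.2 : ℝ≥0∞) ∂Γ ≤ C ∧
    ∀ F : Pth → ℝ≥0∞, Measurable F → (∀ w, F w ≤ 1) → Loc F →
      ∫⁻ p, F (shift p.2 p.1) ∂Γ ≤ ∫⁻ w, F w * f w ∂W + δ ∧
      ∫⁻ w, F w * f w ∂W ≤ ∫⁻ p, F (shift p.2 p.1) ∂Γ + δ

/-- (PRO) compactness -/
def S_PRO : Prop := ∀ (W : Measure Pth), IsWiener W → ∀ (C : ℝ≥0) (Γ : ℕ → Measure (Pth × ℝ≥0)),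
  (∀ n, IsProbabilityMeasure (Γ n)) → (∀ n, (Γ n).map Prod.fst = W) →
  (∀ n, ∫⁻ p, (p.2 : ℝ≥0∞) ∂(Γ n) ≤ C) →
  ∃ (Γ' : Measure (Pth × ℝ≥0)) (k : ℕ → ℕ), IsProbabilityMeasure Γ' ∧ Γ'.map Prod.fst = W ∧
    ∫⁻ p, (p.2 : ℝ≥0∞) ∂Γ' ≤ C ∧ StrictMono k ∧
    ∀ F : Pth × ℝ≥0 → ℝ≥0∞, Continuous F → (∃ c : ℝ≥0, ∀ p, F p ≤ c) →
      Tendsto (fun n => ∫⁻ p, F p ∂(Γ (k n))) atTop (𝓝 (∫⁻ p, F p ∂Γ'))

/-- a function on `[0, 1]` extended -/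
def ext01 (f : Icc (0 : ℝ≥0) 1 → ℝ) (t : ℝ≥0) : ℝ := f ⟨min t 1, ⟨zero_le, min_le_right _ _⟩⟩

/-- (CNV) the law of the window is determined by the finite-dimensional laws -/
def S_CNV : Prop := ∀ μ ν : Measure (Icc (0 : ℝ≥0) 1 → ℝ), IsProbabilityMeasure μ → IsFiniteMeasure ν →
  (∀ᵐ f ∂μ, f 0 = 0) → (∀ᵐ f ∂ν, f 0 = 0) →
  (∀ L : List (ℝ≥0 × (ℝ → ℝ≥0∞)), L ≠ [] → Good L → total L = 1 →
    ∫⁻ f, PP L 0 (ext01 f) ∂μ = ∫⁻ f, PP L 0 (ext01 f) ∂ν) → μ = ν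

end Pool.Agent.R974.BW
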