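import Pool.Agent.R974.BW.Defs

set_option autoImplicit false

namespace Pool.Agent.R974.BW

open MeasureTheory ProbabilityTheory Filter Topology Set
open Pool.Agent.R967.FB
open scoped ENNReal NNReal

lemma IsWiener.prob {W : Measure Pth} (hW : IsWiener W) : IsProbabilityMeasure W :=
  hW.isGaussianProcess.isProbabilityMeasure

lemma ae_zero' {W : Measure Pth} (hW : IsWiener W) : ∀ᵐ w ∂W, w 0 = 0 :=
  hW.toIsPreBrownianReal.eval_zero_ae_eq_zero

/-- `PP` depends only on the values at times in `[0, total]` -/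
lemma PP_congr (L : List (ℝ≥0 × (ℝ → ℝ≥0∞))) (t : ℝ≥0) (f g : ℝ≥0 → ℝ)
    (h : ∀ s, s ≤ t + total L → f s = g s) : PP L t f = PP L t g := by
  induction L generalizing t with
  | nil => rfl
  | cons p L ih =>
    have h1 : total (p :: L) = p.1 + total L := by simp [total]
    rw [h1] at h
    simp only [PP]
    rw [h (t + p.1) (by rw [← add_assoc]; exact le_self_add), ih (t + p.1)]
    intro s hs
    exact h s (by rwa [← add_assoc])

lemma Good.cons {p : ℝ≥0 × (ℝ → ℝ≥0∞)} {L : List (ℝ≥0 × (ℝ → ℝ≥0∞))} (h : Good (p :: L)) : Good L :=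
  fun q hq => h q (List.mem_cons_of_mem _ hq)

lemma PP_bdd {L : List (ℝ≥0 × (ℝ → ℝ≥0∞))} (h : Good L) : ∃ K : ℝ≥0, 0 < K ∧ ∀ t f, PP L t f ≤ K := by
  induction L with
  | nil => exact ⟨1, one_pos, fun t f => by simp [PP]⟩
  | cons p L ih =>
    obtain ⟨K, hK, hb⟩ := ih h.cons
    obtain ⟨C, hC⟩ := (h p List.mem_cons_self).2.2
    refine ⟨(C + 1) * K, by positivity, fun t f => ?_⟩
    simp only [PP]
    push_cast
    exact mul_le_mul' ((hC _).trans (by push_cast; exact le_self_add)) (hb _ _)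

lemma PP_cont {α : Type*} [TopologicalSpace α] {L : List (ℝ≥0 × (ℝ → ℝ≥0∞))} (h : Good L) (t : ℝ≥0)
    {F : α → ℝ≥0 → ℝ} (hF : ∀ s, Continuous fun a => F a s) : Continuous fun a => PP L t (F a) := by
  induction L generalizing t with
  | nil => simp only [PP]; exact continuous_const
  | cons p L ih =>
    simp only [PP]
    obtain ⟨hc, C, hC⟩ := (h p List.mem_cons_self).2
    obtain ⟨K, hK, hb⟩ := PP_bdd h.cons
    have h1 : Continuous fun a => p.2 (F a (t + p.1)) := hc.comp (hF _)
    have h2 := ih h.cons (t + p.1)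
    refine continuous_iff_continuousAt.2 fun a => ?_
    refine ENNReal.Tendsto.mul h1.continuousAt (Or.inr ?_) h2.continuousAt (Or.inr ?_)
    · exact ((hb _ _).trans_lt ENNReal.coe_lt_top).ne
    · exact ((hC _).trans_lt ENNReal.coe_lt_top).ne

lemma PP_meas {α : Type*} [MeasurableSpace α] {L : List (ℝ≥0 × (ℝ → ℝ≥0∞))} (h : Good L) (t : ℝ≥0)
    {F : α → ℝ≥0 → ℝ} (hF : ∀ s, Measurable fun a => F a s) : Measurable fun a => PP L t (F a) := by
  induction L generalizing t with
  | nil => simp only [PP]; exact measurable_const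
  | cons p L ih =>
    simp only [PP]
    exact ((h p List.mem_cons_self).2.1.measurable.comp (hF _)).mul (ih h.cons _)

lemma measurableSet_Up (hUPM : S_UPM) (x : ℝ) (t : ℝ≥0) : MeasurableSet (Up x t) := by
  have h1 : IsOpen (Up x t) := (hUPM t).preimage (f := fun w : Pth => (x, w)) (by fun_prop)
  exact h1.measurableSet

lemma fw_meas (hUPM : S_UPM) {h : ℝ → ℝ≥0∞} (hm : Measurable h) (ε : ℝ) : Measurable (fw h ε) := by
  unfold fw
  refine Measurable.indicator ?_ (measurableSet_Up hUPM ε 1)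
  exact measurable_const.mul (hm.comp ((measurable_eval 1).add_const ε))

lemma fw_loc (h : ℝ → ℝ≥0∞) (ε : ℝ) : Loc (fw h ε) := by
  intro w w' hww
  unfold fw
  have h1 : w ∈ Up ε 1 ↔ w' ∈ Up ε 1 := by
    constructor
    · intro hw s hs
      rw [← hww s hs]; exact hw s hs
    · intro hw s hs
      rw [hww s hs]; exact hw s hs
  by_cases hw : w ∈ Up ε 1
  · rw [indicator_of_mem hw, indicator_of_mem (h1.1 hw), hww 1 le_rfl]
  · rw [indicator_of_notMem hw, indicator_of_notMem (fun h => hw (h1.2 h))]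

end Pool.Agent.R974.BW
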