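import Pool.Agent.R974.BW.Fin1

set_option autoImplicit false

namespace Pool.Agent.R974.BW

open MeasureTheory ProbabilityTheory Filter Topology Set
open Pool.Agent.R967.FB
open scoped ENNReal NNReal

theorem main_limit (hUPM : S_UPM) (hSHC : S_SHC) (hLAW : S_LAW) (hCON : S_CON) (hPRO : S_PRO) (hSMF : S_SMF)
    (W : Measure Pth) (hW : IsWiener W) (h : ℝ → ℝ → ℝ≥0∞) (h₀ : ℝ → ℝ≥0∞) (C A : ℝ≥0)
    (hm : ∀ ε, Measurable (h ε)) (h0m : Measurable h₀)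
    (hb : ∀ ε y : ℝ, 0 < ε → ε ≤ 1 → 0 < y → h ε y ≤ C * ENNReal.ofReal (y + 1 / y))
    (hlim : ∀ y : ℝ, 0 < y → Tendsto (fun ε => h ε y) (𝓝[>] 0) (𝓝 (h₀ y)))
    (hbd : ∀ ε : ℝ, 0 < ε → ∃ b : ℝ≥0, ∀ y, h ε y ≤ b)
    (hone : ∫⁻ p, ENNReal.ofReal (1 / Rad p 1) * h₀ (Rad p 1) ∂(W3 W) = 1)
    (hcor : ∀ (ε : ℝ) (r : ℝ≥0), 0 < ε → ε ≤ 1 → 0 < r → r ≤ 1 / 2 →
      ∫⁻ w, fw (h ε) ε w * fw (h ε) ε (shift r w) ∂W ≤ A * ENNReal.ofReal ((r : ℝ) ^ (-(3 / 4) : ℝ))) :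
    ∃ (Γ : Measure (Pth × ℝ≥0)), IsProbabilityMeasure Γ ∧ Γ.map Prod.fst = W ∧
      ∫⁻ p, (p.2 : ℝ≥0∞) ∂Γ < ∞ ∧
      ∀ L : List (ℝ≥0 × (ℝ → ℝ≥0∞)), L ≠ [] → Good L → total L = 1 →
        ∫⁻ p, PP L 0 (shift p.2 p.1) ∂Γ =
          ∫⁻ p, PP L 0 (Rad p) * (ENNReal.ofReal (1 / Rad p 1) * h₀ (Rad p 1)) ∂(W3 W) := by
  have hWp : IsProbabilityMeasure W := IsWiener.prob hW
  -- the normalising constant
  set c : ℝ → ℝ≥0∞ := fun ε => ∫⁻ w, fw (h ε) ε w ∂W with hc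
  have hc1 : Tendsto c (𝓝[>] 0) (𝓝 1) := by
    have h1 := hLAW W hW h h₀ C [(1, fun _ => 1)] hm h0m hb hlim (by simp)
      (by intro p hp; simp only [List.mem_singleton] at hp; subst hp
          exact ⟨one_pos, continuous_const, 1, fun x => by simp⟩) (by simp [total])
    simp only [PP, one_mul, hone] at h1
    exact h1
  have hev : ∀ᶠ ε in 𝓝[>] (0 : ℝ), (1 / 2 : ℝ≥0∞) < c ε ∧ c ε < 2 := by
    apply Filter.Eventually.and
    · exact hc1.eventually (lt_mem_nhds (by rw [one_div]; exact ENNReal.inv_lt_one.2 (by norm_num)))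
    · exact hc1.eventually (gt_mem_nhds (by norm_num))
  obtain ⟨e0, he0, hev⟩ := mem_nhdsGT_iff_exists_Ioo_subset.1 hev
  simp only [mem_Ioi] at he0
  set e : ℕ → ℝ := fun n => min e0 1 / (n + 2) with he
  have hepos : ∀ n, 0 < e n := fun n => by simp only [he]; positivity
  have hem : 0 < min e0 1 := lt_min he0 one_pos
  have hele : ∀ n, e n < min e0 1 := fun n => by
    simp only [he]
    rw [div_lt_iff₀ (by positivity)]
    nlinarith [(Nat.cast_nonneg n : (0:ℝ) ≤ n)]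
  have hetend : Tendsto e atTop (𝓝[>] 0) := by
    rw [tendsto_nhdsWithin_iff]
    refine ⟨?_, Eventually.of_forall hepos⟩
    simp only [he]
    apply Tendsto.div_atTop tendsto_const_nhds
    exact tendsto_atTop_add_const_right _ _ tendsto_natCast_atTop_atTop
  have hcn : ∀ n, (1 / 2 : ℝ≥0∞) < c (e n) ∧ c (e n) < 2 := fun n =>
    hev ⟨hepos n, (hele n).trans_le (min_le_left _ _)⟩
  have he1 : ∀ n, e n ≤ 1 := fun n => ((hele n).trans_le (min_le_right _ _)).le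
  have hinv2 : ∀ n, (c (e n))⁻¹ ≤ 2 := fun n => by
    have := (hcn n).1.le
    rw [one_div] at this
    exact ENNReal.inv_le_iff_inv_le.1 this
  have hcne : ∀ n, c (e n) ≠ 0 := fun n => ((by simp : (0:ℝ≥0∞) < 1 / 2).trans (hcn n).1).ne'
  have hcnt : ∀ n, c (e n) ≠ ∞ := fun n => ((hcn n).2.trans (by norm_num)).ne
  -- the window densities
  set f : ℕ → Pth → ℝ≥0∞ := fun n w => (c (e n))⁻¹ * fw (h (e n)) (e n) w with hf
  have hfm : ∀ n, Measurable (f n) := fun n => (fw_meas hUPM (hm _) _).const_mul _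
  have hfb : ∀ n, ∃ b : ℝ≥0, ∀ w, f n w ≤ b := by
    intro n
    obtain ⟨b, hb'⟩ := hbd (e n) (hepos n)
    refine ⟨2 * (Real.toNNReal (1 / e n) * b), fun w => ?_⟩
    push_cast
    refine mul_le_mul' (hinv2 n) ?_
    unfold fw
    refine (indicator_le_self _ _ _).trans ?_
    exact mul_le_mul' le_rfl (hb' _)
  have hfl : ∀ n, Loc (f n) := fun n w w' hww => by
    simp only [hf]
    rw [fw_loc _ _ w w' hww]
  have hf1 : ∀ n, ∫⁻ w, f n w ∂W = 1 := by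
    intro n
    simp only [hf]
    rw [lintegral_const_mul _ (fw_meas hUPM (hm _) _)]
    exact ENNReal.inv_mul_cancel (hcne n) (hcnt n)
  have hf2 : ∀ n, ∫⁻ w, (∫⁻ t in Icc (0 : ℝ) (1 / 2), f n (shift t.toNNReal w)) ^ 2 ∂W ≤
      ((4 * (8 * A) : ℝ≥0) : ℝ≥0∞) := by
    intro n
    have h1 := hSMF W hW (fw (h (e n)) (e n)) A (fw_meas hUPM (hm _) _)
      (fun r hr hr' => hcor (e n) r (hepos n) (he1 n) hr hr')
    have h2 : ∀ w, (∫⁻ t in Icc (0 : ℝ) (1 / 2), f n (shift t.toNNReal w)) ^ 2 ≤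
        4 * (∫⁻ t in Icc (0 : ℝ) (1 / 2), fw (h (e n)) (e n) (shift t.toNNReal w)) ^ 2 := by
      intro w
      have h3 : ∫⁻ t in Icc (0 : ℝ) (1 / 2), f n (shift t.toNNReal w) ≤
          2 * ∫⁻ t in Icc (0 : ℝ) (1 / 2), fw (h (e n)) (e n) (shift t.toNNReal w) := by
        simp only [hf]
        rw [lintegral_const_mul' _ _ (ENNReal.inv_ne_top.2 (hcne n))]
        exact mul_le_mul' (hinv2 n) le_rfl
      calc (∫⁻ t in Icc (0 : ℝ) (1 / 2), f n (shift t.toNNReal w)) ^ 2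
          ≤ (2 * ∫⁻ t in Icc (0 : ℝ) (1 / 2), fw (h (e n)) (e n) (shift t.toNNReal w)) ^ 2 :=
            pow_le_pow_left' h3 2
        _ = 4 * _ := by rw [mul_pow]; norm_num
    calc ∫⁻ w, (∫⁻ t in Icc (0 : ℝ) (1 / 2), f n (shift t.toNNReal w)) ^ 2 ∂W
        ≤ ∫⁻ w, 4 * (∫⁻ t in Icc (0 : ℝ) (1 / 2), fw (h (e n)) (e n) (shift t.toNNReal w)) ^ 2 ∂W :=
          lintegral_mono h2
      _ = 4 * ∫⁻ w, (∫⁻ t in Icc (0 : ℝ) (1 / 2), fw (h (e n)) (e n) (shift t.toNNReal w)) ^ 2 ∂W :=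
          lintegral_const_mul' _ _ (by norm_num)
      _ ≤ 4 * (8 * A) := mul_le_mul' le_rfl h1
      _ = ((4 * (8 * A) : ℝ≥0) : ℝ≥0∞) := by push_cast; rfl
  -- the random times
  obtain ⟨C1, hC1⟩ := hCON W hW (4 * (8 * A))
  have hex : ∀ n : ℕ, ∃ Γ : Measure (Pth × ℝ≥0), IsProbabilityMeasure Γ ∧ Γ.map Prod.fst = W ∧
      ∫⁻ p, (p.2 : ℝ≥0∞) ∂Γ ≤ C1 ∧ ∀ F : Pth → ℝ≥0∞, Measurable F → (∀ w, F w ≤ 1) → Loc F →
      ∫⁻ p, F (shift p.2 p.1) ∂Γ ≤ ∫⁻ w, F w * f n w ∂W + (1 / (n + 1) : ℝ≥0) ∧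
      ∫⁻ w, F w * f n w ∂W ≤ ∫⁻ p, F (shift p.2 p.1) ∂Γ + (1 / (n + 1) : ℝ≥0) := by
    intro n
    obtain ⟨b, hb'⟩ := hfb n
    exact hC1 (f n) b (hfm n) hb' (hfl n) (hf1 n) (hf2 n) (1 / (n + 1)) (by positivity)
  choose Γ hΓ1 hΓ2 hΓ3 hΓ4 using hex
  obtain ⟨Γ', k, hP1, hP2, hP3, hk, hP4⟩ := hPRO W hW C1 Γ hΓ1 hΓ2 hΓ3
  refine ⟨Γ', hP1, hP2, hP3.trans_lt ENNReal.coe_lt_top, fun L hL hg ht => ?_⟩
  set R : ℝ≥0∞ := ∫⁻ p, PP L 0 (Rad p) * (ENNReal.ofReal (1 / Rad p 1) * h₀ (Rad p 1)) ∂(W3 W) with hR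
  obtain ⟨K, hK, hKb⟩ := PP_bdd hg
  -- the limit of the window laws
  have hcinv : Tendsto (fun n => (c (e n))⁻¹) atTop (𝓝 1) := by
    have := (hc1.comp hetend).inv
    simpa using this
  have hRle : R ≤ K := by
    calc R ≤ ∫⁻ p, K * (ENNReal.ofReal (1 / Rad p 1) * h₀ (Rad p 1)) ∂(W3 W) :=
          lintegral_mono fun p => mul_le_mul' (hKb _ _) le_rfl
      _ = K := by rw [lintegral_const_mul' _ _ ENNReal.coe_ne_top, hone, mul_one]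
  have hl1 : Tendsto (fun n => ∫⁻ w, PP L 0 w * f n w ∂W) atTop (𝓝 R) := by
    have h1 := (hLAW W hW h h₀ C L hm h0m hb hlim hL hg ht).comp hetend
    have h2 : ∀ n, ∫⁻ w, PP L 0 w * f n w ∂W =
        (c (e n))⁻¹ * ∫⁻ w, PP L 0 w * fw (h (e n)) (e n) w ∂W := by
      intro n
      rw [← lintegral_const_mul' _ _ (ENNReal.inv_ne_top.2 (hcne n))]
      refine lintegral_congr fun w => ?_
      simp only [hf]
      ring
    simp only [h2]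
    have h3 := ENNReal.Tendsto.mul hcinv (Or.inl one_ne_zero) h1
      (Or.inr ENNReal.one_ne_top)
    rw [one_mul] at h3
    exact h3
  -- comparison
  have hLoc : Loc (fun w => (K : ℝ≥0∞)⁻¹ * PP L 0 w) := by
    intro w w' hww
    simp only
    rw [PP_congr L 0 w w' fun s hs => hww s (by simpa [ht] using hs)]
  have hKne : (K : ℝ≥0∞) ≠ 0 := by exact_mod_cast hK.ne'
  have hle1 : ∀ w : Pth, (K : ℝ≥0∞)⁻¹ * PP L 0 w ≤ 1 := fun w => by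
    calc (K : ℝ≥0∞)⁻¹ * PP L 0 w ≤ (K : ℝ≥0∞)⁻¹ * K := mul_le_mul' le_rfl (hKb _ _)
      _ = 1 := ENNReal.inv_mul_cancel hKne ENNReal.coe_ne_top
  have hFm : Measurable (fun w : Pth => (K : ℝ≥0∞)⁻¹ * PP L 0 w) :=
    (PP_meas hg 0 (F := fun (w : Pth) s => w s) measurable_eval).const_mul _
  have hcont : Continuous (fun p : Pth × ℝ≥0 => PP L 0 (shift p.2 p.1)) :=
    PP_cont hg 0 (F := fun (p : Pth × ℝ≥0) s => shift p.2 p.1 s)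
      (fun s => (continuous_eval_const s).comp hSHC)
  have hinvK : (K : ℝ≥0∞)⁻¹ ≠ ∞ := ENNReal.inv_ne_top.2 hKne
  have hKK : (K : ℝ≥0∞) * (K : ℝ≥0∞)⁻¹ = 1 := ENNReal.mul_inv_cancel hKne ENNReal.coe_ne_top
  have ha : ∀ n, ∫⁻ p, PP L 0 (shift p.2 p.1) ∂(Γ n) ≤
      ∫⁻ w, PP L 0 w * f n w ∂W + K * (1 / (n + 1) : ℝ≥0) := by
    intro n
    have h1 := (hΓ4 n _ hFm hle1 hLoc).1
    rw [lintegral_const_mul' _ _ hinvK] at h1
    have h2 : ∫⁻ w, (K : ℝ≥0∞)⁻¹ * PP L 0 w * f n w ∂W = (K : ℝ≥0∞)⁻¹ * ∫⁻ w, PP L 0 w * f n w ∂W := by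
      rw [← lintegral_const_mul' _ _ hinvK]
      exact lintegral_congr fun w => by ring
    rw [h2] at h1
    have h3 := mul_le_mul' (le_refl (K : ℝ≥0∞)) h1
    rwa [mul_add, ← mul_assoc, ← mul_assoc, hKK, one_mul, one_mul] at h3
  have hb2 : ∀ n, ∫⁻ w, PP L 0 w * f n w ∂W ≤
      ∫⁻ p, PP L 0 (shift p.2 p.1) ∂(Γ n) + K * (1 / (n + 1) : ℝ≥0) := by
    intro n
    have h1 := (hΓ4 n _ hFm hle1 hLoc).2
    rw [lintegral_const_mul' _ _ hinvK] at h1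
    have h2 : ∫⁻ w, (K : ℝ≥0∞)⁻¹ * PP L 0 w * f n w ∂W = (K : ℝ≥0∞)⁻¹ * ∫⁻ w, PP L 0 w * f n w ∂W := by
      rw [← lintegral_const_mul' _ _ hinvK]
      exact lintegral_congr fun w => by ring
    rw [h2] at h1
    have h3 := mul_le_mul' (le_refl (K : ℝ≥0∞)) h1
    rwa [mul_add, ← mul_assoc, ← mul_assoc, hKK, one_mul, one_mul] at h3
  have hδ : Tendsto (fun n : ℕ => (K : ℝ≥0∞) * ((1 / (n + 1) : ℝ≥0) : ℝ≥0∞)) atTop (𝓝 0) := by
    have h1 : Tendsto (fun n : ℕ => (1 / (n + 1) : ℝ≥0)) atTop (𝓝 0) :=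
      tendsto_one_div_add_atTop_nhds_zero_nat
    have h2 : Tendsto (fun n : ℕ => ((K * (1 / (n + 1)) : ℝ≥0) : ℝ≥0∞)) atTop (𝓝 ((K * 0 : ℝ≥0) : ℝ≥0∞)) :=
      ENNReal.tendsto_coe.2 (h1.const_mul K)
    simpa using h2
  have hlow : R ≤ ∫⁻ p, PP L 0 (shift p.2 p.1) ∂Γ' := by
    have h1 := (hP4 _ hcont ⟨K, fun p => hKb _ _⟩)
    have h2 := h1.add (hδ.comp hk.tendsto_atTop)
    rw [add_zero] at h2
    exact le_of_tendsto_of_tendsto' (hl1.comp hk.tendsto_atTop) h2 fun n => hb2 (k n)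
  have hup : ∫⁻ p, PP L 0 (shift p.2 p.1) ∂Γ' ≤ R := by
    have h1 := (hP4 _ hcont ⟨K, fun p => hKb _ _⟩)
    have h2 := (hl1.comp hk.tendsto_atTop).add (hδ.comp hk.tendsto_atTop)
    rw [add_zero] at h2
    exact le_of_tendsto_of_tendsto' h1 h2 fun n => ha (k n)
  exact le_antisymm hup hlow

end Pool.Agent.R974.BW
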