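import Pool.Agent.R974.BW.Fin2

set_option autoImplicit false

namespace Pool.Agent.R974.BW

open MeasureTheory ProbabilityTheory Filter Topology Set unitInterval
open Pool.Agent.R967.FB
open scoped ENNReal NNReal

/-- the window of the path `w` at time `t`, as a function on `[0, 1]` -/
def window (w : Pth) (t : ℝ≥0) (u : Icc (0 : ℝ≥0) 1) : ℝ := w (t + u) - w t

/-- from the limit measure to a randomised time -/
theorem law_of_limit (hCNV : S_CNV) (W : Measure Pth) (hW : IsWiener W) (h₀ : ℝ → ℝ≥0∞) (h0m : Measurable h₀)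
    (hone : ∫⁻ p, ENNReal.ofReal (1 / Rad p 1) * h₀ (Rad p 1) ∂(W3 W) = 1)
    (Γ : Measure (Pth × ℝ≥0)) (hΓ : IsProbabilityMeasure Γ) (hfst : Γ.map Prod.fst = W)
    (hint : ∫⁻ p, (p.2 : ℝ≥0∞) ∂Γ < ∞)
    (hL : ∀ L : List (ℝ≥0 × (ℝ → ℝ≥0∞)), L ≠ [] → Good L → total L = 1 →
        ∫⁻ p, PP L 0 (shift p.2 p.1) ∂Γ =
          ∫⁻ p, PP L 0 (Rad p) * (ENNReal.ofReal (1 / Rad p 1) * h₀ (Rad p 1)) ∂(W3 W))
    (hSHC : S_SHC) :
    ∃ T : Pth × I → ℝ≥0, Measurable T ∧ ∫⁻ q, (T q : ℝ≥0∞) ∂(W.prod volume) < ∞ ∧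
      ∀ F : (Icc (0 : ℝ≥0) 1 → ℝ) → ℝ≥0∞, Measurable F →
        ∫⁻ q, F (window q.1 (T q)) ∂(W.prod volume) =
          ∫⁻ p, ENNReal.ofReal (1 / Rad p 1) * h₀ (Rad p 1) * F (fun u => Rad p u) ∂(W3 W) := by
  have hWp : IsProbabilityMeasure W := IsWiener.prob hW
  have hW3p : IsProbabilityMeasure (W3 W) := by unfold W3; infer_instance
  have hRm : ∀ t, Measurable fun p : Pth × Pth × Pth => Rad p t := by
    intro t
    unfold Rad
    have h1 : Measurable fun p : Pth × Pth × Pth => p.1 t := (measurable_eval t).comp measurable_fst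
    have h2 : Measurable fun p : Pth × Pth × Pth => p.2.1 t :=
      (measurable_eval t).comp (measurable_fst.comp measurable_snd)
    have h3 : Measurable fun p : Pth × Pth × Pth => p.2.2 t :=
      (measurable_eval t).comp (measurable_snd.comp measurable_snd)
    exact (((h1.pow_const 2).add (h2.pow_const 2)).add (h3.pow_const 2)).sqrt
  have hjoint : Measurable fun q : Pth × ℝ≥0 => window q.1 q.2 := by
    refine measurable_pi_lambda _ fun u => ?_
    have h1 : Measurable (fun p : Pth × ℝ≥0 => shift p.2 p.1 u) :=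
      ((continuous_eval_const (u : ℝ≥0)).comp hSHC).measurable
    exact h1
  set D : Pth × Pth × Pth → ℝ≥0∞ := fun p => ENNReal.ofReal (1 / Rad p 1) * h₀ (Rad p 1) with hD
  have hDm : Measurable D := by
    refine Measurable.mul ?_ (h0m.comp (hRm 1))
    exact ENNReal.measurable_ofReal.comp (measurable_const.div (hRm 1))
  have hRpm : Measurable fun p : Pth × Pth × Pth => (fun u : Icc (0 : ℝ≥0) 1 => Rad p u) :=
    measurable_pi_lambda _ fun u => hRm u
  set μ : Measure (Icc (0 : ℝ≥0) 1 → ℝ) := Γ.map (fun q => window q.1 q.2) with hμ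
  set ν : Measure (Icc (0 : ℝ≥0) 1 → ℝ) :=
    ((W3 W).withDensity D).map (fun p => (fun u : Icc (0 : ℝ≥0) 1 => Rad p u)) with hν
  have hμp : IsProbabilityMeasure μ := Measure.isProbabilityMeasure_map hjoint.aemeasurable
  have hDfin : IsFiniteMeasure ((W3 W).withDensity D) :=
    isFiniteMeasure_withDensity (by rw [hone]; exact ENNReal.one_ne_top)
  have hνf : IsFiniteMeasure ν := by rw [hν]; infer_instance
  have hext : ∀ (L : List (ℝ≥0 × (ℝ → ℝ≥0∞))) (g : ℝ≥0 → ℝ), total L = 1 →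
      PP L 0 (ext01 (fun u => g u)) = PP L 0 g := by
    intro L g ht
    apply PP_congr
    intro s hs
    rw [zero_add, ht] at hs
    simp only [ext01]
    rw [min_eq_left hs]
  have hPm : ∀ L : List (ℝ≥0 × (ℝ → ℝ≥0∞)), Good L →
      Measurable fun f : Icc (0 : ℝ≥0) 1 → ℝ => PP L 0 (ext01 f) := fun L hg =>
    PP_meas hg 0 (F := fun (f : Icc (0 : ℝ≥0) 1 → ℝ) s => ext01 f s) (fun s => measurable_pi_apply _)
  have hm0 : MeasurableSet {f : Icc (0 : ℝ≥0) 1 → ℝ | f 0 = 0} :=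
    measurableSet_eq_fun (measurable_pi_apply _) measurable_const
  have hae3 : ∀ᵐ p ∂(W3 W), Rad p 0 = 0 := by
    have h1 : ∀ᵐ p ∂(W3 W), p.1 0 = 0 :=
      (measurePreserving_fst (μ := W) (ν := W.prod W)).quasiMeasurePreserving.ae (ae_zero' hW)
    have h2' : ∀ᵐ p ∂(W.prod W), p.1 0 = 0 :=
      (measurePreserving_fst (μ := W) (ν := W)).quasiMeasurePreserving.ae (ae_zero' hW)
    have h3' : ∀ᵐ p ∂(W.prod W), p.2 0 = 0 :=
      (measurePreserving_snd (μ := W) (ν := W)).quasiMeasurePreserving.ae (ae_zero' hW)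
    have h2 : ∀ᵐ p ∂(W3 W), p.2.1 0 = 0 :=
      (measurePreserving_snd (μ := W) (ν := W.prod W)).quasiMeasurePreserving.ae h2'
    have h3 : ∀ᵐ p ∂(W3 W), p.2.2 0 = 0 :=
      (measurePreserving_snd (μ := W) (ν := W.prod W)).quasiMeasurePreserving.ae h3'
    filter_upwards [h1, h2, h3] with p a b c
    simp [Rad, a, b, c]
  have hμν : μ = ν := by
    refine hCNV μ ν hμp hνf ?_ ?_ ?_
    · rw [hμ, ae_map_iff hjoint.aemeasurable hm0]
      refine Eventually.of_forall fun q => ?_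
      simp [window]
    · rw [hν, ae_map_iff hRpm.aemeasurable hm0]
      refine (withDensity_absolutelyContinuous (W3 W) D).ae_le ?_
      filter_upwards [hae3] with p hp
      simpa using hp
    · intro L hne hg ht
      have hwd : ∫⁻ a, PP L 0 (ext01 fun u => Rad a u) ∂((W3 W).withDensity D) =
          ∫⁻ a, D a * PP L 0 (ext01 fun u => Rad a u) ∂(W3 W) :=
        lintegral_withDensity_eq_lintegral_mul (W3 W) hDm ((hPm L hg).comp hRpm)
      rw [hμ, hν, lintegral_map (hPm L hg) hjoint, lintegral_map (hPm L hg) hRpm, hwd]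
      have h1 := hL L hne hg ht
      have h2 : ∀ q : Pth × ℝ≥0, PP L 0 (ext01 (window q.1 q.2)) = PP L 0 (shift q.2 q.1) := fun q =>
        hext L (shift q.2 q.1) ht
      simp only [h2, h1]
      refine lintegral_congr fun p => ?_
      rw [hext L (Rad p) ht, mul_comm]
  -- the randomised time
  obtain ⟨f, hfm, hf⟩ := Kernel.exists_measurable_map_eq_unitInterval Γ.condKernel
  have hfstΓ : Γ.fst = W := hfst
  have hjl : (W.prod (volume : Measure I)).map (fun q => (q.1, f q.1 q.2)) = Γ := by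
    have h1 : Γ = Γ.fst ⊗ₘ Γ.condKernel := (Γ.disintegrate Γ.condKernel).symm
    have hTm : Measurable (fun q : Pth × I => (q.1, f q.1 q.2)) := measurable_fst.prodMk hfm
    conv_rhs => rw [h1, hfstΓ]
    ext S hS
    rw [Measure.map_apply hTm hS, Measure.compProd_apply hS, Measure.prod_apply (hTm hS)]
    refine lintegral_congr fun w => ?_
    have hfw : Measurable (f w) := hfm.comp measurable_prodMk_left
    rw [← hf w, Measure.map_apply hfw (measurable_prodMk_left hS)]
    rfl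
  have hTm : Measurable (fun q : Pth × I => (q.1, f q.1 q.2)) := measurable_fst.prodMk hfm
  refine ⟨fun q => f q.1 q.2, hfm, ?_, fun F hF => ?_⟩
  · have h1 : ∫⁻ q, ((f q.1 q.2 : ℝ≥0) : ℝ≥0∞) ∂(W.prod volume) = ∫⁻ p, (p.2 : ℝ≥0∞) ∂Γ := by
      rw [← hjl, lintegral_map (by fun_prop) hTm]
    rw [h1]; exact hint
  · have h1 : ∫⁻ q, F (window q.1 (f q.1 q.2)) ∂(W.prod volume) = ∫⁻ p, F (window p.1 p.2) ∂Γ := by
      have h3 : ∫⁻ p, F (window p.1 p.2) ∂((W.prod (volume : Measure I)).map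
          (fun q => (q.1, f q.1 q.2))) = ∫⁻ q, F (window q.1 (f q.1 q.2)) ∂(W.prod volume) :=
        lintegral_map (hF.comp hjoint) hTm
      rw [hjl] at h3
      exact h3.symm
    have h2 : ∫⁻ p, F (window p.1 p.2) ∂Γ = ∫⁻ x, F x ∂μ := by
      rw [hμ, lintegral_map hF hjoint]
    have h4 : ∫⁻ a, F (fun u => Rad a u) ∂((W3 W).withDensity D) =
        ∫⁻ a, D a * F (fun u => Rad a u) ∂(W3 W) :=
      lintegral_withDensity_eq_lintegral_mul (W3 W) hDm (hF.comp hRpm)
    rw [h1, h2, hμν, hν, lintegral_map hF hRpm, h4]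

end Pool.Agent.R974.BW
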