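import Pool.Agent.R974.BW.Fin3
import Pool.Agent.R966.FBM.W
import Pool.Agent.R670.BW_UPM
import Pool.Agent.R670.BW_SHC
import Pool.Agent.R670.BW_PFP
import Pool.Agent.R506.BW_MKV
import Pool.Agent.R711.BW_IND
import Pool.Agent.R606.BW_REF
import Pool.Agent.R92.BW_MK
import Pool.Agent.R734.BW_RAD
import Pool.Agent.R444.BW_BF
import Pool.Agent.R799.BW_LIM
import Pool.Agent.R186.BW_LAW
import Pool.Agent.R81.BW_CNS
import Pool.Agent.R653.BW_KB1
import Pool.Agent.R21.BW_KB2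
import Pool.Agent.R506.BW_SA1
import Pool.Agent.R403.BW_SA2
import Pool.Agent.R363.BW_SMF
import Pool.Agent.R596.BW_SEL
import Pool.Agent.R676.BW_CON
import Pool.Agent.R883.BW_PRO
import Pool.Agent.R883.BW_CNV

set_option autoImplicit false

namespace Pool.Agent.R974.BW

open MeasureTheory ProbabilityTheory Filter Topology Set unitInterval
open Pool.Agent.R967.FB
open scoped ENNReal NNReal

theorem fUPM : S_UPM := Pool.Agent.R670.BW.t_UPM
theorem fSHC : S_SHC := Pool.Agent.R670.BW.t_SHC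
theorem fPFP : S_PFP := Pool.Agent.R670.BW.t_PFP
theorem fMKV : S_MKV := Pool.Agent.R506.BWM.t_MKV
theorem fREF : S_REF := Pool.Agent.R606.BW.t_REF fMKV
theorem fMK : S_MK := Pool.Agent.R92.BW.t_MK fREF fMKV fUPM
theorem fRAD : S_RAD := Pool.Agent.R734.BW.t_RAD
theorem fBF : S_BF := Pool.Agent.R444.BWBF.t_BF fRAD fMKV
theorem fLIM : S_LIM := Pool.Agent.R799.BWLIM.t_LIM
theorem fLAW : S_LAW := Pool.Agent.R186.BWLaw.t_LAW fMK fPFP fBF fLIM
theorem fCNS : S_CNS := Pool.Agent.R81.BW.t_CNS fBF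
theorem fKB1 : S_KB1 := Pool.Agent.R653.BWKB1.t_KB1
theorem fKB2 : S_KB2 := Pool.Agent.R21.BW.t_KB2
theorem fSA1 : S_SA1 := Pool.Agent.R506.BWS.t_SA1 fMKV fREF fUPM fKB1 fKB2
theorem fSA2 : S_SA2 := Pool.Agent.R403.BWSA2.t_SA2 fMKV fREF fUPM fKB1
theorem fSMF : S_SMF := Pool.Agent.R363.BW.t_SMF
theorem fCNV : S_CNV := Pool.Agent.R883.BWCnv.t_CNV
theorem fPRO : S_PRO := Pool.Agent.R883.BWPro.t_PRO
theorem fIND : S_IND := t_IND fMKV
theorem fCON : S_CON := Pool.Agent.R676.BW.t_CON fIND t_SEL fSHC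

lemma Rad_nonneg (p : Pth × Pth × Pth) (t : ℝ≥0) : 0 ≤ Rad p t := Real.sqrt_nonneg _

lemma Rad_meas (t : ℝ≥0) : Measurable fun p : Pth × Pth × Pth => Rad p t := by
  unfold Rad
  have h1 : Measurable fun p : Pth × Pth × Pth => p.1 t := (measurable_eval t).comp measurable_fst
  have h2 : Measurable fun p : Pth × Pth × Pth => p.2.1 t :=
    (measurable_eval t).comp (measurable_fst.comp measurable_snd)
  have h3 : Measurable fun p : Pth × Pth × Pth => p.2.2 t :=
    (measurable_eval t).comp (measurable_snd.comp measurable_snd)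
  exact (((h1.pow_const 2).add (h2.pow_const 2)).add (h3.pow_const 2)).sqrt

/-- windows with the law of the three-dimensional Bessel process -/
theorem bessel (W : Measure Pth) (hW : IsWiener W) :
    ∃ T : Pth × I → ℝ≥0, Measurable T ∧ ∫⁻ q, (T q : ℝ≥0∞) ∂(W.prod volume) < ∞ ∧
      ∀ F : (Icc (0 : ℝ≥0) 1 → ℝ) → ℝ≥0∞, Measurable F →
        ∫⁻ q, F (window q.1 (T q)) ∂(W.prod volume) = ∫⁻ p, F (fun u => Rad p u) ∂(W3 W) := by
  have hWp : IsProbabilityMeasure W := IsWiener.prob hW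
  have hW3p : IsProbabilityMeasure (W3 W) := by unfold W3; infer_instance
  obtain ⟨A, hA⟩ := fSA2
  have hle : ∀ ε y : ℝ, ENNReal.ofReal (min y (1 / ε)) ≤ ENNReal.ofReal y := fun ε y =>
    ENNReal.ofReal_le_ofReal (min_le_left _ _)
  obtain ⟨Γ, h1, h2, h3, h4⟩ := main_limit fUPM fSHC fLAW fCON fPRO fSMF W hW
    (fun ε y => ENNReal.ofReal (min y (1 / ε))) (fun y => ENNReal.ofReal y) 1 A
    (fun ε => ENNReal.measurable_ofReal.comp (measurable_id.min measurable_const))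
    ENNReal.measurable_ofReal
    (fun ε y h1 h2 h3 => by
      rw [ENNReal.coe_one, one_mul]
      have h5 : 0 < 1 / y := by positivity
      exact (hle ε y).trans (ENNReal.ofReal_le_ofReal (by linarith)))
    (fun y hy => by
      refine tendsto_const_nhds.congr' ?_
      have : ∀ᶠ ε in 𝓝[>] (0 : ℝ), ε < 1 / y :=
        mem_nhdsWithin_of_mem_nhds (gt_mem_nhds (by positivity))
      filter_upwards [this, self_mem_nhdsWithin] with ε h1 h2
      rw [min_eq_left]
      rw [mem_Ioi] at h2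
      rw [lt_div_iff₀ hy] at h1
      rw [le_div_iff₀ h2]
      linarith)
    (fun ε hε => ⟨(1 / ε).toNNReal, fun y => ENNReal.ofReal_le_ofReal (min_le_right _ _)⟩)
    (fCNS W hW).1
    (fun ε r h1 h2 h3 h4 => hA W hW _ ε r
      (ENNReal.measurable_ofReal.comp (measurable_id.min measurable_const))
      (fun y _ => hle ε y) h1 h2 h3 h4)
  obtain ⟨T, hT1, hT2, hT3⟩ := law_of_limit fCNV W hW _ ENNReal.measurable_ofReal (fCNS W hW).1 Γ h1 h2 h3 h4
    fSHC
  refine ⟨T, hT1, hT2, fun F hF => ?_⟩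
  rw [hT3 F hF]
  have hD : ∀ p : Pth × Pth × Pth, ENNReal.ofReal (1 / Rad p 1) * ENNReal.ofReal (Rad p 1) ≤ 1 := by
    intro p
    rw [← ENNReal.ofReal_mul (by have := Rad_nonneg p 1; positivity)]
    rw [← ENNReal.ofReal_one]
    apply ENNReal.ofReal_le_ofReal
    by_cases h0 : Rad p 1 = 0
    · simp [h0]
    · rw [one_div, inv_mul_cancel₀ h0]
  have hDm : Measurable fun p : Pth × Pth × Pth => ENNReal.ofReal (1 / Rad p 1) * ENNReal.ofReal (Rad p 1) :=
    (ENNReal.measurable_ofReal.comp (measurable_const.div (Rad_meas 1))).mul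
      (ENNReal.measurable_ofReal.comp (Rad_meas 1))
  have hae : (fun p : Pth × Pth × Pth => ENNReal.ofReal (1 / Rad p 1) * ENNReal.ofReal (Rad p 1)) =ᵐ[W3 W]
      fun _ => (1 : ℝ≥0∞) := by
    refine ae_eq_of_ae_le_of_lintegral_le (Eventually.of_forall hD) ?_ aemeasurable_const ?_
    · rw [(fCNS W hW).1]; exact ENNReal.one_ne_top
    · rw [(fCNS W hW).1]; simp
  refine lintegral_congr_ae ?_
  filter_upwards [hae] with p hp
  rw [hp, one_mul]

/-- windows with the law of the Brownian co-meander -/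
theorem comeander (W : Measure Pth) (hW : IsWiener W) :
    ∃ T : Pth × I → ℝ≥0, Measurable T ∧ ∫⁻ q, (T q : ℝ≥0∞) ∂(W.prod volume) < ∞ ∧
      ∀ F : (Icc (0 : ℝ≥0) 1 → ℝ) → ℝ≥0∞, Measurable F →
        ∫⁻ q, F (window q.1 (T q)) ∂(W.prod volume) =
          ∫⁻ p, ENNReal.ofReal ((Rad p 1 ^ 2)⁻¹) * F (fun u => Rad p u) ∂(W3 W) := by
  obtain ⟨A, hA⟩ := fSA1
  have hle : ∀ ε y : ℝ, ENNReal.ofReal (min (1 / y) (1 / ε)) ≤ ENNReal.ofReal (1 / y) := fun ε y =>
    ENNReal.ofReal_le_ofReal (min_le_left _ _)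
  have hm : ∀ ε : ℝ, Measurable fun y : ℝ => ENNReal.ofReal (min (1 / y) (1 / ε)) := fun ε =>
    ENNReal.measurable_ofReal.comp ((measurable_const.div measurable_id).min measurable_const)
  have hm0 : Measurable fun y : ℝ => ENNReal.ofReal (1 / y) :=
    ENNReal.measurable_ofReal.comp (measurable_const.div measurable_id)
  obtain ⟨Γ, h1, h2, h3, h4⟩ := main_limit fUPM fSHC fLAW fCON fPRO fSMF W hW
    (fun ε y => ENNReal.ofReal (min (1 / y) (1 / ε))) (fun y => ENNReal.ofReal (1 / y)) 1 A hm hm0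
    (fun ε y h1 h2 h3 => by
      rw [ENNReal.coe_one, one_mul]
      exact (hle ε y).trans (ENNReal.ofReal_le_ofReal (by linarith)))
    (fun y hy => by
      refine tendsto_const_nhds.congr' ?_
      have : ∀ᶠ ε in 𝓝[>] (0 : ℝ), ε < y := mem_nhdsWithin_of_mem_nhds (gt_mem_nhds hy)
      filter_upwards [this, self_mem_nhdsWithin] with ε h1 h2
      rw [min_eq_left]
      rw [mem_Ioi] at h2
      exact one_div_le_one_div_of_le h2 h1.le)
    (fun ε hε => ⟨(1 / ε).toNNReal, fun y => ENNReal.ofReal_le_ofReal (min_le_right _ _)⟩)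
    (fCNS W hW).2
    (fun ε r h1 h2 h3 h4 => hA W hW _ ε r (hm ε) (fun y _ => hle ε y) h1 h2 h3 h4)
  obtain ⟨T, hT1, hT2, hT3⟩ := law_of_limit fCNV W hW _ hm0 (fCNS W hW).2 Γ h1 h2 h3 h4 fSHC
  refine ⟨T, hT1, hT2, fun F hF => ?_⟩
  rw [hT3 F hF]
  refine lintegral_congr fun p => ?_
  congr 1
  have h0 : 0 ≤ 1 / Rad p 1 := by have := Rad_nonneg p 1; positivity
  rw [← ENNReal.ofReal_mul h0]
  congr 1
  rw [one_div, ← mul_inv, ← sq]

end Pool.Agent.R974.BW
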